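import Pool.Agent.H8.JS.Targets

/-!
# Definability of the encoding of accepting computations
-/

set_option autoImplicit false

namespace Pool.Agent.H50.JS

open Pool.Agent.H69.Sp Pool.Agent.H69.Mt Pool.Agent.H16.TO Pool.Agent.H8.PL Pool.Agent.H8.JS

theorem pf_e2 (hFG : J_FG) (hFH : J_FH) (hFI : J_FI) (hFT : J_FT) : J_E2 := by
  intro M eq es
  have hS : FD (fun N E v => EncS M eq es N E (v 3)) := by
    refine (FD.all 6 ((FD.lt 6 3).imp (FD.ex 7 ((FD.succ 6 7).and (hFT M eq es))))).congr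
      fun N E v _ => ?_
    simp [EncS, Function.update]
  have hA : FD (fun N E v => Ex1 N (fun s => E 1 [v 3, s]) (eq M.acc)) :=
    hFG.1 1 3 (eq M.acc) (by omega)
  refine (FD.ex 0 (FD.ex 2 (FD.ex 3 ((FD.num 0 0).and (hFH.and ((hFI M eq es).and
    (hS.and hA))))))).ed.congr fun N E v _ => ?_
  simp [EncP, Function.update]

end Pool.Agent.H50.JS
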